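import Pool.Agent.W762.KT.BHK
import Pool.Agent.W23.KI.Defs

/-!
KI-BHI: `Pool.Agent.W597.KS.BHU` with `k/p` in place of `k/(p-1)`.
-/

open Finset

namespace Pool.Agent.W193.KI

open Pool.Agent.W308.PL.FLW
open Pool.Agent.Helper112.LP.Kbh
open Pool.Agent.Helper112.LP.Kba
open Pool.Agent.W23
open Pool.Agent.W23.DC
open Pool.Agent.W23.KT
open Pool.Agent.W23.KS
open Pool.Agent.W23.KI
open Pool.Agent.W762.KT (coreK one_sub_ge mem_pr tot_prod)

theorem BHI : St_BHI := by
  intro k hk
  have hk1 : (1 : ℝ) ≤ k := by exact_mod_cast hk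
  have hk0 : (0 : ℝ) < k := by linarith
  set b : ℕ := 3 * k with hb
  have hbR : (b : ℝ) = 3 * k := by rw [hb]; push_cast; ring
  have h46 : (0 : ℝ) < 4 * b + 6 := by positivity
  set ζ : ℝ := 49 / (100 * (4 * b + 6)) with hζ
  have hζ0 : 0 < ζ := by positivity
  have hζ1 : (4 * b + 6) * ζ = 49 / 100 := by rw [hζ]; field_simp
  have hζ2 : ζ ≤ 1 / 10 := by
    have : (10 : ℝ) ≤ 4 * b + 6 := by rw [hbR]; linarith
    nlinarith
  refine ⟨ζ, Real.exp (-1) / 2, hζ0, hζ2, by positivity, ?_⟩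
  intro ε hε hεζ
  have hlogr : 0 ≤ Real.log (ζ / ε) := by
    apply Real.log_nonneg
    rw [le_div_iff₀ hε]
    linarith
  set δ : ℝ := 1 / (2 * (k * Real.log (ζ / ε) + 1)) with hδ
  have hkl : 0 ≤ k * Real.log (ζ / ε) := mul_nonneg hk0.le hlogr
  have hδ0 : 0 < δ := by positivity
  have hδ1 : δ ≤ 1 / 2 := by
    rw [hδ]
    apply one_div_le_one_div_of_le (by norm_num)
    linarith
  have hδ2 : δ * (k * Real.log (ζ / ε) + 1) = 1 / 2 := by
    rw [hδ]; field_simp
  obtain ⟨N₁, hN₁⟩ := Pool.Agent.W378.DC.MP ε (1 / (4 * k)) hε (by positivity)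
  have hexJ : ∃ J : ℕ, (1 / 2 : ℝ) ^ J < ε / ζ :=
    exists_pow_lt_of_lt_one (show 0 < ε / ζ by positivity) (show (1 / 2 : ℝ) < 1 by norm_num)
  obtain ⟨J, hJ, hJmin⟩ : ∃ J : ℕ, (1 / 2 : ℝ) ^ J < ε / ζ ∧
      ∀ i < J, ¬ (1 / 2 : ℝ) ^ i < ε / ζ := by
    classical
    exact ⟨Nat.find hexJ, Nat.find_spec hexJ, fun i hi => Nat.find_min hexJ hi⟩
  have hJ1 : 1 ≤ J := by
    rcases Nat.eq_zero_or_pos J with h | h
    · rw [h, pow_zero, lt_div_iff₀ hζ0] at hJ
      linarith
    · exact h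
  have hJε : ζ * (1 / 2) ^ J ≤ ε := by
    rw [lt_div_iff₀ hζ0] at hJ
    linarith
  have hJU : (J : ℝ) + 1 ≤ 1 / ε := by
    have h1 := hJmin (J - 1) (by omega)
    push Not at h1
    have h2 : ((J : ℝ)) ≤ 2 ^ (J - 1) := by
      have h3 : J - 1 < 2 ^ (J - 1) := Nat.lt_two_pow_self
      have h4 : J ≤ 2 ^ (J - 1) := by omega
      exact_mod_cast h4
    have h5 : (2 : ℝ) ^ (J - 1) ≤ ζ / ε := by
      rw [div_pow, one_pow] at h1
      rw [div_le_div_iff₀ hζ0 (by positivity)] at h1
      rw [le_div_iff₀ hε]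
      linarith
    have h6 : (1 : ℝ) ≤ J := by exact_mod_cast hJ1
    have h7 : (J : ℝ) + 1 ≤ 2 * (ζ / ε) := by linarith
    refine h7.trans ?_
    rw [← mul_div_assoc]
    apply div_le_div_of_nonneg_right _ hε.le
    linarith
  refine ⟨max (max N₁ 3) ⌈Real.exp (Real.log (k / δ + 1) / ε)⌉₊, ?_⟩
  intro N hN P hPsub
  have hN1 : N₁ ≤ N := le_trans (le_trans (le_max_left _ _) (le_max_left _ _)) hN
  have hN3 : 3 ≤ N := le_trans (le_trans (le_max_right _ _) (le_max_left _ _)) hN
  have hNe : Real.exp (Real.log (k / δ + 1) / ε) ≤ N :=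
    (Nat.le_ceil _).trans (by exact_mod_cast le_trans (le_max_right _ _) hN)
  have hN0 : (0 : ℝ) < N := by
    have : (3 : ℝ) ≤ N := by exact_mod_cast hN3
    linarith
  have hlog0 : 0 < Real.log N := by
    apply Real.log_pos
    have : (3 : ℝ) ≤ N := by exact_mod_cast hN3
    linarith
  have hkd : (0 : ℝ) < k / δ + 1 := by positivity
  have hlogN : Real.log (k / δ + 1) ≤ ε * Real.log N := by
    have := (Real.le_log_iff_exp_le hN0).2 hNe
    rw [div_le_iff₀ hε] at this
    linarith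
  set g : ℕ → ℝ := fun p => k / (p : ℝ) with hg
  have hgle : ∀ p : ℕ, p.Prime → g p ≤ k * (1 / ((p : ℝ) - 1)) := by
    intro p hp
    have h7 : (1 : ℝ) < p := by exact_mod_cast hp.one_lt
    simp only [hg]
    rw [mul_one_div]
    apply div_le_div_of_nonneg_left hk0.le (by linarith) (by linarith)
  have hgall : ∀ p ∈ pr N ε ζ, 0 ≤ g p ∧ g p ≤ δ := by
    intro p hp
    rw [mem_pr] at hp
    have hp0 : (0 : ℝ) < p := by exact_mod_cast hp.2.1.pos
    have h1 := hp.2.2.1
    unfold tt at h1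
    rw [le_div_iff₀ hlog0] at h1
    have h2 : (k : ℝ) / δ + 1 ≤ p := by
      rw [← Real.log_le_log_iff hkd hp0]
      linarith
    have h3 : (k : ℝ) / δ ≤ p - 1 := by linarith
    have h4 : (0 : ℝ) < p - 1 := lt_of_lt_of_le (by positivity) h3
    refine ⟨by simp only [hg]; positivity, ?_⟩
    simp only [hg]
    rw [div_le_iff₀ hp0]
    rw [div_le_iff₀ hδ0] at h3
    nlinarith
  have hgP : ∀ p ∈ P, 0 ≤ g p ∧ g p ≤ 1 / 2 := fun p hp =>
    ⟨(hgall p (hPsub hp)).1, (hgall p (hPsub hp)).2.trans hδ1⟩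
  have hPmem : ∀ p ∈ P, (1 ≤ p ∧ p ≤ N) ∧ p.Prime ∧ ε ≤ tt N p ∧ tt N p < ζ :=
    fun p hp => mem_pr.1 (hPsub hp)
  set Pb : Fin J → Finset ℕ := fun j => blk N ζ P j with hPb
  have hmono : ∀ i j : ℕ, i ≤ j → ζ * (1 / 2 : ℝ) ^ j ≤ ζ * (1 / 2) ^ i := by
    intro i j hij
    apply mul_le_mul_of_nonneg_left _ hζ0.le
    exact pow_le_pow_of_le_one (by norm_num) (by norm_num) hij
  have hdisj0 : ∀ i j : ℕ, i < j → Disjoint (blk N ζ P i) (blk N ζ P j) := by
    intro i j hij
    rw [disjoint_left]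
    intro p hi hj
    rw [mem_blk] at hi hj
    have := hmono (i + 1) j hij
    linarith [hi.2.1, hj.2.2]
  have hdisj : ∀ i j, i ≠ j → Disjoint (Pb i) (Pb j) := by
    intro i j hij
    rcases lt_or_gt_of_ne (fun h => hij (Fin.ext h) : (i : ℕ) ≠ j) with h | h
    · exact hdisj0 i j h
    · exact (hdisj0 j i h).symm
  have hcover : P = univ.biUnion Pb := by
    ext p
    rw [mem_biUnion]
    constructor
    · intro hp
      have htt : ζ * (1 / 2) ^ (J - 1 + 1) ≤ tt N p := by
        have : J - 1 + 1 = J := by omega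
        rw [this]
        exact hJε.trans (hPmem p hp).2.2.1
      have hex : ∃ j : ℕ, ζ * (1 / 2) ^ (j + 1) ≤ tt N p := ⟨J - 1, htt⟩
      classical
      have h1 := Nat.find_spec hex
      have h2 : Nat.find hex ≤ J - 1 := Nat.find_min' hex htt
      refine ⟨⟨Nat.find hex, by omega⟩, mem_univ _, ?_⟩
      simp only [hPb]
      rw [mem_blk]
      refine ⟨hp, h1, ?_⟩
      by_cases h0 : Nat.find hex = 0
      · rw [h0, pow_zero, mul_one]
        exact (hPmem p hp).2.2.2
      · have h3 := Nat.find_min hex (m := Nat.find hex - 1) (by omega)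
        have h4 : Nat.find hex - 1 + 1 = Nat.find hex := by omega
        rw [h4] at h3
        push Not at h3
        exact h3
    · rintro ⟨j, -, hj⟩
      simp only [hPb] at hj
      exact (mem_blk.1 hj).1
  have hprime : ∀ j, ∀ p ∈ Pb j, p.Prime := by
    intro j p hp
    exact (hPmem p (mem_blk.1 hp).1).2.1
  have hη : (k : ℝ) * (1 / (4 * k)) = 1 / 4 := by field_simp
  have hLj : ∀ j, ∑ p ∈ Pb j, g p ≤ (k : ℝ) := by
    intro j
    by_cases hc : ε ≤ ζ * (1 / 2) ^ (j : ℕ)
    · set a : ℝ := max ε (ζ * (1 / 2) ^ ((j : ℕ) + 1)) with ha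
      set B : ℝ := ζ * (1 / 2) ^ (j : ℕ) with hB
      have hB0 : 0 < B := by positivity
      have haB : a ≤ B := max_le hc (hmono j (j + 1) (by omega))
      have ha2 : B / 2 ≤ a := by
        refine le_trans (le_of_eq ?_) (le_max_right _ _)
        rw [hB, pow_succ]; ring
      have ha0 : 0 < a := lt_of_lt_of_le hε (le_max_left _ _)
      have hB1 : B ≤ 1 := by
        have := hmono 0 j (by omega)
        rw [pow_zero, mul_one] at this
        linarith
      have hMP := hN₁ N hN1 a B (le_max_left _ _) haB hB1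
      have h1 := (abs_le.1 hMP).2
      have h2 : Real.log (B / a) ≤ Real.log 2 := by
        apply Real.log_le_log (by positivity)
        rw [div_le_iff₀ ha0]
        linarith
      have hsub : Pb j ⊆ pr N a B := by
        intro p hp
        have h3 := mem_blk.1 hp
        have h4 := hPmem p h3.1
        rw [mem_pr]
        exact ⟨h4.1, h4.2.1, max_le h4.2.2.1 h3.2.1, h3.2.2⟩
      have h5 : ∑ p ∈ Pb j, g p ≤ k * ∑ p ∈ pr N a B, 1 / ((p : ℝ) - 1) := by
        rw [mul_sum]
        refine (sum_le_sum_of_subset_of_nonneg hsub fun p hp _ => ?_).trans ?_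
        · have h6 := (mem_pr.1 hp).2.1.one_lt
          have h7 : (1 : ℝ) < p := by exact_mod_cast h6
          simp only [hg]
          positivity
        · apply sum_le_sum
          intro p hp
          exact hgle p (mem_pr.1 hp).2.1
      have h6 : k * ∑ p ∈ pr N a B, 1 / ((p : ℝ) - 1) ≤ k * (Real.log 2 + 1 / (4 * k)) := by
        apply mul_le_mul_of_nonneg_left _ hk0.le
        linarith
      have h7 := Real.log_two_lt_d9
      rw [mul_add, hη] at h6
      nlinarith
    · have : Pb j = ∅ := by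
        rw [eq_empty_iff_forall_notMem]
        intro p hp
        have h3 := mem_blk.1 hp
        have h4 := hPmem p h3.1
        push Not at hc
        linarith [h4.2.2.1, h3.2.2]
      rw [this, sum_empty]
      exact hk0.le
  have hlevel : ∀ U ⊆ P, (∀ j : Fin J, (U ∩ Pb j).card ≤ 2 * (b + j) + 1) →
      ∏ p ∈ U, p ≤ ⌊(N : ℝ) ^ (49 / 100 : ℝ)⌋₊ := by
    intro U hU hc
    have hUpos : ∀ p ∈ U, (0 : ℝ) < p := fun p hp => by
      exact_mod_cast (hPmem p (hU hp)).2.1.pos
    have hsplit : U = univ.biUnion fun j => U ∩ Pb j := by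
      ext p
      rw [mem_biUnion]
      constructor
      · intro hp
        have := hU hp
        rw [hcover, mem_biUnion] at this
        obtain ⟨j, hj, hpj⟩ := this
        exact ⟨j, hj, mem_inter.2 ⟨hp, hpj⟩⟩
      · rintro ⟨j, -, hj⟩
        exact (mem_inter.1 hj).1
    have hlogU : ∑ p ∈ U, Real.log p ≤ 49 / 100 * Real.log N := by
      calc ∑ p ∈ U, Real.log p = ∑ j : Fin J, ∑ p ∈ U ∩ Pb j, Real.log p := by
            conv_lhs => rw [hsplit]
            rw [sum_biUnion]
            intro i _ j _ hij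
            exact disjoint_of_subset_left inter_subset_right
              (disjoint_of_subset_right inter_subset_right (hdisj i j hij))
        _ ≤ ∑ j : Fin J, (2 * ((b : ℝ) + (j : ℕ)) + 1) * (1 / 2 : ℝ) ^ (j : ℕ) *
              (ζ * Real.log N) := by
            apply sum_le_sum
            intro j _
            calc ∑ p ∈ U ∩ Pb j, Real.log p ≤
                ∑ p ∈ U ∩ Pb j, ζ * (1 / 2) ^ (j : ℕ) * Real.log N := by
                  apply sum_le_sum
                  intro p hp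
                  have h1 := (mem_blk.1 (mem_inter.1 hp).2).2.2
                  unfold tt at h1
                  rw [div_lt_iff₀ hlog0] at h1
                  exact h1.le
              _ = ((U ∩ Pb j).card : ℝ) * (ζ * (1 / 2) ^ (j : ℕ) * Real.log N) := by
                  rw [sum_const, nsmul_eq_mul]
              _ ≤ (2 * ((b : ℝ) + (j : ℕ)) + 1) * (ζ * (1 / 2) ^ (j : ℕ) * Real.log N) := by
                  apply mul_le_mul_of_nonneg_right _ (by positivity)
                  exact_mod_cast hc j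
              _ = _ := by ring
        _ = (4 * b + 6 - (4 * J + 4 * b + 6) * (1 / 2 : ℝ) ^ J) * (ζ * Real.log N) := by
            rw [← sum_mul, Fin.sum_univ_eq_sum_range
              (fun j => (2 * ((b : ℝ) + (j : ℕ)) + 1) * (1 / 2 : ℝ) ^ j), geo_sum]
        _ ≤ (4 * b + 6) * (ζ * Real.log N) := by
            apply mul_le_mul_of_nonneg_right _ (by positivity)
            have : 0 ≤ (4 * (J : ℝ) + 4 * b + 6) * (1 / 2 : ℝ) ^ J := by positivity
            linarith
        _ = (4 * b + 6) * ζ * Real.log N := by ring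
        _ = 49 / 100 * Real.log N := by rw [hζ1]
    apply Nat.le_floor
    push_cast
    rw [← Real.log_le_log_iff (prod_pos hUpos) (Real.rpow_pos_of_pos hN0 _),
      Real.log_rpow hN0, Real.log_prod (fun p hp => (hUpos p hp).ne')]
    exact hlogU
  have hρ : ∑ j : Fin J, Real.exp (2 * (k : ℝ)) *
      ((k : ℝ) ^ (2 * (b + (j : ℕ)) + 1) / ((2 * (b + (j : ℕ)) + 1).factorial : ℝ)) ≤ 1 / 2 := by
    rw [← mul_sum, Fin.sum_univ_eq_sum_range
      (fun j => (k : ℝ) ^ (2 * (b + j) + 1) / ((2 * (b + j) + 1).factorial : ℝ))]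
    have h1 := tail_sum k 1 hk0 (by norm_num) b J
    have h2 := mul_le_mul_of_nonneg_left h1 (Real.exp_pos (2 * (k : ℝ))).le
    refine h2.trans ?_
    rw [← Real.exp_add]
    have h3 : (1 / 2 : ℝ) = Real.exp (-Real.log 2) := by
      rw [Real.exp_neg, Real.exp_log (by norm_num)]; norm_num
    rw [h3]
    apply Real.exp_le_exp.2
    have h4 := Real.exp_one_lt_d9
    have h5 := Real.log_two_lt_d9
    rw [hbR]
    nlinarith
  have hG : ∀ U ⊆ P, kw k (∏ p ∈ U, p) / ((∏ p ∈ U, p : ℕ) : ℝ) = ∏ p ∈ U, g p := by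
    intro U hU
    have hUp : ∀ p ∈ U, p.Prime := fun p hp => (hPmem p (hU hp)).2.1
    unfold kw
    rw [Nat.primeFactors_prod hUp]
    simp only [hg]
    rw [prod_div_distrib, prod_const, Nat.cast_prod]
  obtain ⟨th, h1, h2, h3, h4⟩ := coreK Pb b hdisj P hcover hprime g hgP k hLj
    ⌊(N : ℝ) ^ (49 / 100 : ℝ)⌋₊ hlevel hρ (fun e => kw k e / (e : ℝ)) hG
  refine ⟨th, fun e => (h1 e).trans hJU, ?_, ?_, ?_⟩
  · intro e he
    obtain ⟨a1, a2, a3⟩ := h2 e he
    refine ⟨a1, ?_, a3⟩
    exact (Nat.le_floor_iff (Real.rpow_nonneg hN0.le _)).1 a2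
  · intro m
    exact h3 m
  · refine le_trans ?_ h4
    -- the main term
    have hsub : ∏ p ∈ pr N ε ζ, (1 - g p) ≤ ∏ p ∈ P, (1 - g p) := by
      classical
      rw [← prod_sdiff hPsub]
      apply mul_le_of_le_one_left
      · exact prod_nonneg fun p hp => by linarith [(hgP p hp).2]
      · apply prod_le_one
        · intro p hp
          linarith [(hgall p (mem_sdiff.1 hp).1).2]
        · intro p hp
          linarith [(hgall p (mem_sdiff.1 hp).1).1]
    have hMP := hN₁ N hN1 ε ζ le_rfl hεζ.le (by linarith)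
    have hS : ∑ p ∈ pr N ε ζ, g p ≤ k * Real.log (ζ / ε) + 1 / 4 := by
      have a1 := (abs_le.1 hMP).2
      have a2 : ∑ p ∈ pr N ε ζ, g p ≤ k * ∑ p ∈ pr N ε ζ, 1 / ((p : ℝ) - 1) := by
        rw [mul_sum]
        apply sum_le_sum
        intro p hp
        exact hgle p (mem_pr.1 hp).2.1
      refine a2.trans ?_
      have a3 : k * ∑ p ∈ pr N ε ζ, 1 / ((p : ℝ) - 1) ≤
          k * (Real.log (ζ / ε) + 1 / (4 * k)) := by
        apply mul_le_mul_of_nonneg_left _ hk0.le
        linarith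
      rw [mul_add, hη] at a3
      exact a3
    have hS2 : ∑ p ∈ pr N ε ζ, g p ^ 2 ≤ 1 / 2 := by
      calc ∑ p ∈ pr N ε ζ, g p ^ 2 ≤ ∑ p ∈ pr N ε ζ, δ * g p := by
            apply sum_le_sum
            intro p hp
            have := hgall p hp
            rw [pow_two]
            exact mul_le_mul_of_nonneg_right this.2 this.1
        _ = δ * ∑ p ∈ pr N ε ζ, g p := by rw [mul_sum]
        _ ≤ δ * (k * Real.log (ζ / ε) + 1) := by
            apply mul_le_mul_of_nonneg_left _ hδ0.le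
            linarith
        _ = 1 / 2 := hδ2
    have hprod : Real.exp (-(k * Real.log (ζ / ε) + 1)) ≤ ∏ p ∈ pr N ε ζ, (1 - g p) := by
      have a1 : Real.exp (∑ p ∈ pr N ε ζ, (-(g p + g p ^ 2))) ≤ ∏ p ∈ pr N ε ζ, (1 - g p) := by
        rw [Real.exp_sum]
        exact prod_le_prod (fun l _ => (Real.exp_pos _).le)
          fun l hl => one_sub_ge (hgall l hl).1 ((hgall l hl).2.trans hδ1)
      refine le_trans (Real.exp_le_exp.2 ?_) a1
      rw [sum_neg_distrib, sum_add_distrib]
      linarith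
    have hpow : Real.exp (-(k * Real.log (ζ / ε) + 1)) = Real.exp (-1) * (ε / ζ) ^ k := by
      have a1 : -(k * Real.log (ζ / ε) + 1) = -1 + k * Real.log (ε / ζ) := by
        have : Real.log (ε / ζ) = - Real.log (ζ / ε) := by
          rw [← Real.log_inv, inv_div]
        rw [this]; ring
      rw [a1, Real.exp_add, Real.exp_nat_mul, Real.exp_log (by positivity)]
    have hle : ε ^ k ≤ (ε / ζ) ^ k := by
      apply pow_le_pow_left₀ hε.le
      rw [le_div_iff₀ hζ0]
      nlinarith
    have a5 : Real.exp (-1) * ε ^ k ≤ Real.exp (-1) * (ε / ζ) ^ k :=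
      mul_le_mul_of_nonneg_left hle (Real.exp_pos _).le
    linarith

end Pool.Agent.W193.KI

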